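import Pool.Agent.H47.SQ.Targets3

/-!
MP_c62aed_lc, XS0: the states of a good solution.
-/

set_option autoImplicit false

namespace Pool.Agent.H89.SQ

open Finset Pool.Agent.H97.RK Pool.Agent.H41.SS Pool.Agent.H47.SR
open Pool.Agent.H47.PL (Sat)

theorem sa_of_sat {n k m : ℕ} {F : Fml n k m} {τ : Fin n → Bool} (hs : Sat F τ)
    {B : Finset (Fin n)} {c : Fin m} (hc : ∀ i, (F c i).1 ∈ B) : Sa F τ B c := by
  obtain ⟨i, hi⟩ := hs c
  exact ⟨i, hc i, hi⟩

theorem mem_pre {n i : ℕ} {v : Fin n} : v ∈ pre n i ↔ v.1 < i := by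
  simp [pre]

theorem pre_mono {n i j : ℕ} (h : i ≤ j) : pre n i ⊆ pre n j := by
  intro v hv
  rw [mem_pre] at hv ⊢
  omega

theorem pre_card (n i : ℕ) : (pre n i).card ≤ i := by
  have h1 : (pre n i).card ≤ (range i).card := by
    refine Finset.card_le_card_of_injOn (fun v => v.1) ?_ ?_
    · intro v hv
      rw [Finset.mem_coe, mem_pre] at hv
      rw [Finset.mem_coe, Finset.mem_range]
      exact hv
    · intro v _ w _ h
      exact Fin.ext h
  rwa [Finset.card_range] at h1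

theorem cnt_mono {n k m : ℕ} {F : Fml n k m} {x : Fin n → Bool} {A W : Finset (Fin n)}
    {j₀ N N' : ℕ} (h : Cnt F x A W j₀ N') (hN : N ≤ N') : Cnt F x A W j₀ N :=
  fun W'' J'' h1 h2 h3 h4 h5 h6 => h W'' J'' h1 h2 h3 h4 h5 (by omega)

theorem pf_XS0 (hXCN : T_XCN) (hXCY : T_XCY) : T_XS0 := by
  classical
  intro n k m F t t₁ d u u₁ ht₁ htt huu hun hdu τ hs hBG
  have hB : GdB F t t₁ d u u₁ τ := hBG.1 τ (by simp [Zb])
  have hE : GdE F t t₁ u₁ τ := hBG.2 τ (by simp [dst])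
  obtain ⟨hN1, hN2⟩ := hXCN n k m F t t₁ d u u₁ τ huu
  have hN1 := hN1 hB
  have hN2 := hN2 hE htt
  refine ⟨?_, ?_⟩
  · obtain ⟨W', J', c1, c2, c3, c4, c5, c6, c7⟩ := hXCY n k m F (2 * t) t₁ τ (pre n 0) ∅ ∅
      (fun c hc => absurd hc (Finset.notMem_empty c))
      (fun c hc => absurd hc (Finset.notMem_empty c)) (by rw [Finset.card_empty]; omega)
      (by simp) (cnt_mono (hN2 0 ∅ (Nat.zero_le _)) (by omega))
    refine ⟨W', J', ⟨c3, c4, fun c hc => sa_of_sat hs (c3 c hc), c7, by omega, c6⟩, ?_,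
      fun _ => c5⟩
    have h1 : (W' ∩ pre n (n - u₁)).card ≤ W'.card := Finset.card_le_card Finset.inter_subset_left
    omega
  · intro i W J hi h hI
    have hsub : pre n i ∪ W ⊆ pre n (i + 1) ∪ W :=
      Finset.union_subset_union (pre_mono (Nat.le_succ i)) (Finset.Subset.refl _)
    have hmem : ∀ c ∈ J, ∀ j, (F c j).1 ∈ pre n (i + 1) ∪ W := fun c hc j => hsub (h.mem c hc j)
    have hfls : ∀ c ∈ J, Al F τ (pre n (i + 1) \ W) c := by
      intro c hc j hj
      rw [Finset.mem_sdiff] at hj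
      refine h.fls c hc j (Finset.mem_sdiff.mpr ⟨?_, hj.2⟩)
      rcases Finset.mem_union.mp (h.mem c hc j) with h1 | h1
      · exact h1
      · exact absurd h1 hj.2
    by_cases hcase : i + 1 ≤ n - u₁
    · obtain ⟨W', J', c1, c2, c3, c4, c5, c6, c7⟩ := hXCY n k m F (2 * t) t₁ τ (pre n (i + 1)) W J
        hmem hfls (hI.2 (by omega)) h.crd (cnt_mono (hN2 (i + 1) W hcase) (by omega))
      refine ⟨W', J', c1, ⟨c3, c4, fun c hc => sa_of_sat hs (c3 c hc), c7, by omega, c6⟩, ?_,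
        fun _ => c5⟩
      have h1 : (W' ∩ pre n (n - u₁)).card ≤ W'.card :=
        Finset.card_le_card Finset.inter_subset_left
      omega
    · have hA : pre n (n - u₁) ⊆ pre n (i + 1) := pre_mono (by omega)
      have hU : (pre n (i + 1) ∪ pre n (n - u)).card + 12 * t + d ≤ n := by
        have h1 : pre n (i + 1) ∪ pre n (n - u) = pre n (n - u) :=
          Finset.union_eq_right.2 (pre_mono (by omega))
        have h2 := pre_card n (n - u)
        rw [h1]
        omega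
      obtain ⟨W', J', c1, c2, c3, c4, c5, c6, c7⟩ := hXCY n k m F (2 * t) (2 * t) τ
        (pre n (i + 1)) W J hmem hfls h.lt h.crd
        (cnt_mono (hN1 (pre n (i + 1)) W hA hI.1 hU) (by omega))
      refine ⟨W', J', c1, ⟨c3, c4, fun c hc => sa_of_sat hs (c3 c hc), c7, c5, c6⟩, ?_,
        fun h1 => absurd h1 hcase⟩
      refine le_trans (Finset.card_le_card ?_) hI.1
      intro v hv
      rw [Finset.mem_inter] at hv ⊢
      exact ⟨c2 v (hA hv.2) hv.1, hv.2⟩

end Pool.Agent.H89.SQ
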